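import Pool.Agent.H293.CP.PF3
import Pool.Graph.R_pool_sql_team_seeded_3997aac3.Q14.LQ.EF
import Pool.Graph.R_pool_sql_team_seeded_3997aac3.Q14.LQ.CL
import Pool.Graph.R_pool_sql_team_seeded_3997aac3.Q14.LQ.LA
import Pool.Graph.R_pool_sql_team_seeded_3997aac3.Q151.LQ.MV
import Pool.Graph.R_pool_sql_team_seeded_3997aac3.Q174.LQ.CT

/-!
# Project LQ, assembly, part 1: the sum over the zeros of all L-functions modulo `q`
-/

set_option autoImplicit false

open Complex Filter Topology Metric Set MeasureTheory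
open scoped ComplexConjugate
open DirichletCharacter (LFunction completedLFunction changeLevel)

namespace Pool.Agent.H293.LQ

open Pool.Agent.NH13.UV (Gr)
open Pool.Agent.Q253.LQ Pool.Agent.H293.CP Pool.Agent.Q14.LQ

variable {q : ℕ} [NeZero q]

lemma xi_conj (s : ℂ) : xi (conj s) = conj (xi s) := by
  have h : ∀ w : ℂ, xi w = (1 / 2) * Pool.Agent.H862.VK.Yz (w - 1 / 2) := by
    intro w
    unfold xi Pool.Agent.H862.VK.Yz
    have e : (1 / 2 + (w - 1 / 2) : ℂ) = w := by ring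
    rw [e]
    ring
  have e1 : conj (1 / 2 : ℂ) = 1 / 2 := Pool.Agent.Q119.HV.conj_half'
  rw [h, h, map_mul, e1, ← Pool.Agent.H862.VK.Yz_conj, map_sub, e1]

lemma compl_eq {N N' : ℕ} [NeZero N] [NeZero N'] (h : N ∣ q) (h' : N' ∣ q) (ψ : DirichletCharacter ℂ N)
    (ψ' : DirichletCharacter ℂ N') (hN : N = N') (he : changeLevel h ψ = changeLevel h' ψ') :
    completedLFunction ψ = completedLFunction ψ' := by
  subst hN
  rw [DirichletCharacter.changeLevel_injective h he]

lemma XL_conj (χ : DirichletCharacter ℂ q) (s : ℂ) : XL χ⁻¹ (conj s) = conj (XL χ s) := by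
  by_cases h1 : χ = 1
  · subst h1
    unfold XL
    rw [if_pos inv_one, if_pos rfl]
    exact xi_conj s
  · have h2 : χ⁻¹ ≠ 1 := fun h => h1 (inv_eq_one.1 h)
    have : NeZero χ.conductor := ⟨χ.conductor_ne_zero⟩
    have : NeZero (χ⁻¹).conductor := ⟨(χ⁻¹).conductor_ne_zero⟩
    have hN : 1 < χ.conductor := by
      have h2 : χ.conductor ≠ 1 := fun h => h1 (DirichletCharacter.eq_one_iff_conductor_eq_one.2 h)
      have h3 := NeZero.ne χ.conductor
      omega
    have hψ : χ.primitiveCharacter.IsPrimitive := χ.primitiveCharacter_isPrimitive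
    have hψ1 : χ.primitiveCharacter ≠ 1 := H855R2.SF.ne_one_of_prim hN hψ
    have hc : (χ⁻¹).conductor = χ.conductor := DirichletCharacter.conductor_inv χ
    have e1 : completedLFunction (χ⁻¹).primitiveCharacter = completedLFunction (χ.primitiveCharacter)⁻¹ := by
      refine compl_eq (q := q) (χ⁻¹).conductor_dvd_level χ.conductor_dvd_level _ _ hc ?_
      rw [(χ⁻¹).changeLevel_primitiveCharacter, map_inv, χ.changeLevel_primitiveCharacter]
    have e2 : conj ((χ.conductor : ℂ) ^ (s / 2)) = (χ.conductor : ℂ) ^ (conj s / 2) := by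
      have h := cpow_conj (χ.conductor : ℂ) (s / 2) (by rw [natCast_arg]; exact Real.pi_pos.ne)
      rw [conj_natCast] at h
      rw [← h, map_div₀]
      congr 2
      exact (Complex.conj_ofNat 2)
    unfold XL
    rw [if_neg h2, if_neg h1, map_mul, e2, ← H353.E.completed_conj hN hψ1, e1, hc]

lemma XL_diff (χ : DirichletCharacter ℂ q) : Differentiable ℂ (XL χ) := by
  by_cases h1 : χ = 1
  · have e : XL χ = fun w => (1 / 2) * Pool.Agent.H862.VK.Yz (w - 1 / 2) := by
      funext w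
      unfold XL xi Pool.Agent.H862.VK.Yz
      rw [if_pos h1]
      have e : (1 / 2 + (w - 1 / 2) : ℂ) = w := by ring
      rw [e]
      ring
    rw [e]
    exact (Pool.Agent.H862.VK.Yz_diff.comp (differentiable_id.sub_const _)).const_mul _
  · have : NeZero χ.conductor := ⟨χ.conductor_ne_zero⟩
    have hN : 1 < χ.conductor := by
      have h2 : χ.conductor ≠ 1 := fun h => h1 (DirichletCharacter.eq_one_iff_conductor_eq_one.2 h)
      have h3 := NeZero.ne χ.conductor
      omega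
    have hψ : χ.primitiveCharacter.IsPrimitive := χ.primitiveCharacter_isPrimitive
    have hψ1 : χ.primitiveCharacter ≠ 1 := H855R2.SF.ne_one_of_prim hN hψ
    have e : XL χ = fun s => (χ.conductor : ℂ) ^ (s / 2) * completedLFunction χ.primitiveCharacter s := by
      funext s
      unfold XL
      rw [if_neg h1]
    rw [e]
    have hNc : (χ.conductor : ℂ) ≠ 0 := by exact_mod_cast NeZero.ne χ.conductor
    intro s
    have h3 : DifferentiableAt ℂ (fun z : ℂ => (χ.conductor : ℂ) ^ (z / 2)) s := by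
      apply DifferentiableAt.const_cpow _ (Or.inl hNc)
      fun_prop
    exact h3.mul (DirichletCharacter.differentiable_completedLFunction hψ1 s)

lemma Xi_conj (χ : DirichletCharacter ℂ q) (z : ℂ) : Xi χ⁻¹ (conj z) = conj (Xi χ z) := by
  unfold Xi
  have e1 : (1 / 2 + conj z : ℂ) = conj (1 / 2 + z) := by
    rw [map_add, Pool.Agent.Q119.HV.conj_half']
  rw [e1]
  generalize (1 / 2 + z : ℂ) = s
  have h1 : HasDerivAt (fun w => conj (XL χ (conj w))) (conj (deriv (XL χ) s)) (conj s) :=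
    (XL_diff χ s).hasDerivAt.conj_conj
  have h2 : (fun w => conj (XL χ (conj w))) = XL χ⁻¹ := by
    funext w
    rw [← XL_conj, conj_conj]
  rw [h2] at h1
  rw [logDeriv_apply, logDeriv_apply, h1.deriv, XL_conj, map_div₀]

/-- the total multiplicity -/
noncomputable def MM (q : ℕ) [NeZero q] (γ : ℝ) : ℕ := ∑ χ : DirichletCharacter ℂ q, mc χ γ

lemma MM_neg (γ : ℝ) : MM q (-γ) = MM q γ := by
  unfold MM
  rw [← Equiv.sum_comp (Equiv.inv (DirichletCharacter ℂ q)) (fun χ => mc χ γ)]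
  refine Finset.sum_congr rfl fun χ _ => ?_
  rw [t_SY]
  rfl

/-- the total logarithmic derivative -/
noncomputable def XX (q : ℕ) [NeZero q] (z : ℂ) : ℂ := ∑ χ : DirichletCharacter ℂ q, Xi χ z

lemma one_pf {χ : DirichletCharacter ℂ q} (hχ : GRHc χ) {z : ℂ} (hz : 0 < z.re) :
    HasSum (fun γ : ℝ => (mc χ γ : ℂ) * (1 / (z - γ * I) + 1 / (z + γ * I))) (Xi χ z + conj (Xi χ (conj z))) := by
  obtain ⟨Y, h1, h2, h3, h4, h5, h6⟩ := dt_ex χ hχ
  have hz0 := h4 z hz
  have hz1 : 0 < (conj z).re := by rw [conj_re]; exact hz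
  have hw0 : Y (-z) ≠ 0 := by
    have := h3 (conj z)
    rw [conj_conj] at this
    rw [this]
    intro h
    exact h4 (conj z) hz1 ((map_eq_zero (starRingEnd ℂ)).1 h)
  have h := pf_real h1 h2 h3 h4 h5 hz0 hw0
  have e1 := logDeriv_sym h1 h3 (conj z)
  rw [conj_conj] at e1
  rw [e1, sub_neg_eq_add, ← h6 z hz, ← h6 (conj z) hz1] at h
  refine h.congr_fun ?_
  intro γ
  have e2 : (1 / (-z - γ * I) : ℂ) = -(1 / (z + γ * I)) := by
    rw [show (-z - (γ : ℂ) * I) = -(z + γ * I) by ring, div_neg]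
  rw [e2, sub_neg_eq_add]

lemma sum_pf (hG : ∀ χ : DirichletCharacter ℂ q, GRHc χ) {z : ℂ} (hz : 0 < z.re) :
    HasSum (fun γ : ℝ => (MM q γ : ℂ) * (1 / (z - γ * I) + 1 / (z + γ * I))) (2 * XX q z) := by
  have h := hasSum_sum (s := Finset.univ) fun (χ : DirichletCharacter ℂ q) _ => one_pf (hG χ) hz
  have e : ∑ χ : DirichletCharacter ℂ q, (Xi χ z + conj (Xi χ (conj z))) = 2 * XX q z := by
    rw [Finset.sum_add_distrib]
    have e2 : ∑ χ : DirichletCharacter ℂ q, conj (Xi χ (conj z)) = XX q z := by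
      unfold XX
      rw [← Equiv.sum_comp (Equiv.inv (DirichletCharacter ℂ q)) (fun χ => Xi χ z)]
      refine Finset.sum_congr rfl fun χ _ => ?_
      have := Xi_conj χ (conj z)
      rw [conj_conj] at this
      exact this.symm
    rw [e2]
    unfold XX
    ring
  rw [e] at h
  refine h.congr_fun ?_
  intro γ
  unfold MM
  push_cast
  rw [Finset.sum_mul]

lemma MM_sm (hG : ∀ χ : DirichletCharacter ℂ q, GRHc χ) :
    Summable (fun γ : ℝ => (MM q γ : ℝ) / (1 + γ ^ 2)) := by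
  have h : Summable fun γ : ℝ => ∑ χ : DirichletCharacter ℂ q, (mc χ γ : ℝ) / (1 + γ ^ 2) :=
    summable_sum fun χ _ => (t_PF q χ (hG χ)).1
  refine h.congr fun γ => ?_
  unfold MM
  push_cast
  rw [Finset.sum_div]

/-- the function on the circle -/
noncomputable def ZZt (q : ℕ) [NeZero q] (t : ℂ) : ℂ := XX q ((1 - t) ^ (1 / 2 : ℂ)) / (1 - t) ^ (1 / 2 : ℂ)

lemma sqrt_re {t : ℂ} (ht : ‖t‖ = 1 / 2) : 0 < ((1 - t) ^ (1 / 2 : ℂ)).re := by
  have h1 : 0 < (1 - t).re := by
    rw [sub_re, one_re]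
    have := (abs_le.1 (abs_re_le_norm t)).2
    rw [ht] at this
    linarith
  have h0 : (1 - t : ℂ) ≠ 0 := by
    intro h
    rw [h, zero_re] at h1
    exact lt_irrefl _ h1
  have harg : |(1 - t).arg| < Real.pi / 2 := by
    rw [abs_arg_lt_pi_div_two_iff]
    exact Or.inl h1
  rw [cpow_def_of_ne_zero h0, exp_re]
  refine mul_pos (Real.exp_pos _) (Real.cos_pos_of_mem_Ioo ?_)
  have e : (log (1 - t) * (1 / 2)).im = (1 - t).arg / 2 := by
    rw [show (1 / 2 : ℂ) = ((1 / 2 : ℝ) : ℂ) by push_cast; ring, im_mul_ofReal, log_im]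
    ring
  rw [e]
  have h2 := abs_lt.1 harg
  have hpi := Real.pi_pos
  constructor <;> linarith [h2.1, h2.2]

lemma ZZt_eq (hG : ∀ χ : DirichletCharacter ℂ q, GRHc χ) {t : ℂ} (ht : ‖t‖ = 1 / 2) :
    ZZt q t = ∑' γ : ℝ, (((MM q γ : ℕ) : ℝ) : ℂ) / (1 + (γ : ℂ) ^ 2 - t) := by
  have hz := sqrt_re ht
  unfold ZZt
  have hzz : ((1 - t) ^ (1 / 2 : ℂ)) ^ 2 = 1 - t := by
    rw [← cpow_nat_mul]
    norm_num
  generalize (1 - t) ^ (1 / 2 : ℂ) = z at hz hzz ⊢
  have hz0 : z ≠ 0 := by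
    intro h
    rw [h, zero_re] at hz
    exact lt_irrefl _ hz
  have h := (sum_pf hG hz).mul_left (1 / (2 * z))
  have e : 1 / (2 * z) * (2 * XX q z) = XX q z / z := by field_simp
  rw [e] at h
  rw [← h.tsum_eq]
  refine tsum_congr fun γ => ?_
  have h1 : z - γ * I ≠ 0 := zI_ne hz γ
  have h2 : z + γ * I ≠ 0 := by
    intro h
    have := congrArg Complex.re h
    simp at this
    linarith
  have e3 : 1 + (γ : ℂ) ^ 2 - t = (z - γ * I) * (z + γ * I) := by
    have : (z - γ * I) * (z + γ * I) = z ^ 2 - (γ : ℂ) ^ 2 * I ^ 2 := by ring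
    rw [this, hzz, I_sq]
    ring
  rw [e3]
  push_cast
  field_simp
  ring

end Pool.Agent.H293.LQ
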