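import Pool.Agent.H293.LQ.A1

/-!
# Project LQ, assembly, part 2: mean values
-/

set_option autoImplicit false

open Complex Filter Topology Metric Set MeasureTheory
open scoped ComplexConjugate
open DirichletCharacter (LFunction completedLFunction changeLevel)

namespace Pool.Agent.H293.LQ

open Pool.Agent.Q253.LQ Pool.Agent.H293.CP Pool.Agent.Q14.LQ

section general

/-- sums over the index set -/
lemma even_split {f : ℝ → ℝ} (hf : Summable f) (he : ∀ x, f (-x) = f x) :
    ∑' x : ℝ, f x = f 0 + 2 * ∑' x : Ioi (0 : ℝ), f x := by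
  have h1 : Summable ((Ioi (0 : ℝ)).indicator f) := hf.indicator _
  have h2 : Summable fun x => (Ioi (0 : ℝ)).indicator f (-x) := (Equiv.neg ℝ).summable_iff.2 h1
  have h3 : Summable (({0} : Set ℝ).indicator f) := hf.indicator _
  have e : f = fun x => (Ioi (0 : ℝ)).indicator f x + (Ioi (0 : ℝ)).indicator f (-x) +
      ({0} : Set ℝ).indicator f x := by
    funext x
    rcases lt_trichotomy x 0 with h | h | h
    · rw [indicator_of_notMem (by simp [h.le]), indicator_of_mem (by simpa using h),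
        indicator_of_notMem (by simpa using h.ne), he]
      ring
    · subst h
      simp
    · rw [indicator_of_mem (by simpa using h), indicator_of_notMem (by simp [h.le]),
        indicator_of_notMem (by simpa using h.ne')]
      ring
  conv_lhs => rw [e]
  rw [(h1.add h2).tsum_add h3, h1.tsum_add h2]
  have e1 : ∑' x : ℝ, (Ioi (0 : ℝ)).indicator f (-x) = ∑' x : ℝ, (Ioi (0 : ℝ)).indicator f x :=
    (Equiv.neg ℝ).tsum_eq ((Ioi (0 : ℝ)).indicator f)
  have e2 : ∑' x : ℝ, ({0} : Set ℝ).indicator f x = f 0 := by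
    rw [tsum_eq_single 0 fun x hx => indicator_of_notMem (by simpa using hx) f]
    simp
  rw [e1, e2, ← tsum_subtype]
  ring

end general

section index

variable {q : ℕ} [NeZero q]

/-- the positive ordinates with multiplicities -/
abbrev Ix (q : ℕ) [NeZero q] : Type := Σ γ : Ioi (0 : ℝ), Σ χ : DirichletCharacter ℂ q, Fin (mc χ γ)

lemma inner_card (γ : ℝ) : Fintype.card (Σ χ : DirichletCharacter ℂ q, Fin (mc χ γ)) = MM q γ := by
  rw [Fintype.card_sigma]
  simp [MM]

lemma inner_sum (γ : ℝ) (x : ℝ) :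
    HasSum (fun _ : (Σ χ : DirichletCharacter ℂ q, Fin (mc χ γ)) => x) ((MM q γ : ℝ) * x) := by
  have h := hasSum_fintype (fun _ : (Σ χ : DirichletCharacter ℂ q, Fin (mc χ γ)) => x)
  rw [Finset.sum_const, Finset.card_univ, inner_card, nsmul_eq_mul] at h
  exact h

lemma ix_summable {F : ℝ → ℝ} (hF : Summable fun γ : ℝ => (MM q γ : ℝ) * F γ) (h0 : ∀ γ, 0 ≤ F γ) :
    Summable (fun i : Ix q => F i.1) := by
  refine (summable_sigma_of_nonneg fun i => h0 _).2 ⟨fun γ => (inner_sum (q := q) γ (F γ)).summable, ?_⟩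
  have h1 : Summable fun γ : Ioi (0 : ℝ) => (MM q γ : ℝ) * F γ := hF.subtype _
  exact h1.congr fun γ => (inner_sum (q := q) γ (F γ)).tsum_eq.symm

lemma ix_tsum {F : ℝ → ℝ} (hF : Summable (fun i : Ix q => F i.1)) :
    ∑' i : Ix q, F i.1 = ∑' γ : Ioi (0 : ℝ), (MM q γ : ℝ) * F γ := by
  have h := hF.tsum_sigma' (fun γ : Ioi (0 : ℝ) => (inner_sum (q := q) (γ : ℝ) (F γ)).summable)
  rw [h]
  exact tsum_congr fun γ => (inner_sum (q := q) (γ : ℝ) (F γ)).tsum_eq

/-- the coefficients -/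
noncomputable def cc (γ : ℝ) : ℝ := 2 / (1 + γ ^ 2)

lemma cc_pos (γ : ℝ) : 0 < cc γ := by unfold cc; positivity

lemma cc_sum (hG : ∀ χ : DirichletCharacter ℂ q, GRHc χ) : Summable fun γ : ℝ => (MM q γ : ℝ) * cc γ := by
  refine ((MM_sm hG).mul_left 2).congr fun γ => ?_
  unfold cc
  ring

lemma cc_ix (hG : ∀ χ : DirichletCharacter ℂ q, GRHc χ) : Summable fun i : Ix q => cc i.1 :=
  ix_summable (cc_sum hG) fun γ => (cc_pos γ).le

/-- the sum over the zeros -/
noncomputable def Zt (q : ℕ) [NeZero q] (u : ℝ) : ℝ := ∑' γ : ℝ, (MM q γ : ℝ) * (cc γ * Real.cos (γ * u))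

lemma zt_sum (hG : ∀ χ : DirichletCharacter ℂ q, GRHc χ) (u : ℝ) :
    Summable fun γ : ℝ => (MM q γ : ℝ) * (cc γ * Real.cos (γ * u)) := by
  refine Summable.of_norm_bounded (cc_sum hG) fun γ => ?_
  rw [norm_mul, norm_mul, Real.norm_natCast, Real.norm_of_nonneg (cc_pos γ).le, Real.norm_eq_abs]
  have h1 := Real.abs_cos_le_one (γ * u)
  have h2 := (cc_pos γ).le
  have h3 : (0 : ℝ) ≤ MM q γ := Nat.cast_nonneg _
  have : cc γ * |Real.cos (γ * u)| ≤ cc γ := by nlinarith
  exact mul_le_mul_of_nonneg_left this h3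

lemma zt_cont (hG : ∀ χ : DirichletCharacter ℂ q, GRHc χ) : Continuous (Zt q) := by
  unfold Zt
  refine continuous_tsum (fun γ => by fun_prop) (cc_sum hG) fun γ u => ?_
  rw [norm_mul, norm_mul, Real.norm_natCast, Real.norm_of_nonneg (cc_pos γ).le, Real.norm_eq_abs]
  have h1 := Real.abs_cos_le_one (γ * u)
  have h2 := (cc_pos γ).le
  have h3 : (0 : ℝ) ≤ MM q γ := Nat.cast_nonneg _
  have : cc γ * |Real.cos (γ * u)| ≤ cc γ := by nlinarith
  exact mul_le_mul_of_nonneg_left this h3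

lemma zt_split (hG : ∀ χ : DirichletCharacter ℂ q, GRHc χ) (u : ℝ) :
    Zt q u = 2 * MM q 0 + ∑' i : Ix q, 2 * cc i.1 * Real.cos (i.1 * u) := by
  have h1 : ∀ x : ℝ, (MM q (-x) : ℝ) * (cc (-x) * Real.cos (-x * u)) = (MM q x : ℝ) * (cc x * Real.cos (x * u)) := by
    intro x
    rw [MM_neg]
    unfold cc
    rw [neg_sq, neg_mul, Real.cos_neg]
  unfold Zt
  rw [even_split (zt_sum hG u) h1]
  have h2 : Summable fun i : Ix q => 2 * cc i.1 * Real.cos (i.1 * u) := by
    refine Summable.of_norm_bounded ((cc_ix hG).mul_left 2) fun i => ?_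
    rw [norm_mul, norm_mul, Real.norm_of_nonneg (cc_pos _).le, Real.norm_eq_abs, Real.norm_eq_abs, abs_two]
    have h1 := Real.abs_cos_le_one (i.1 * u)
    have h2 := (cc_pos i.1).le
    nlinarith
  rw [ix_tsum (q := q) (F := fun γ => 2 * cc γ * Real.cos (γ * u)) h2, ← tsum_mul_left]
  congr 1
  · unfold cc
    simp
    ring
  · refine tsum_congr fun γ => ?_
    ring

end index

end Pool.Agent.H293.LQ
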