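import Pool.Agent.H293.LQ.A2

/-!
# Project LQ, assembly, part 3: the exponential mean
-/

set_option autoImplicit false

open Complex Filter Topology Metric Set MeasureTheory
open scoped ComplexConjugate
open DirichletCharacter (LFunction completedLFunction changeLevel)

namespace Pool.Agent.H293.LQ

open Pool.Agent.Q253.LQ Pool.Agent.H293.CP Pool.Agent.Q14.LQ

variable {q : ℕ} [NeZero q]

lemma re_Zs {χ : DirichletCharacter ℂ q} (hs : Summable (fun γ : ℝ => (mc χ γ : ℝ) / (1 + γ ^ 2))) (u : ℝ) :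
    HasSum (fun γ : ℝ => (mc χ γ : ℝ) * (cc γ * Real.cos (γ * u))) (Zs χ u).re := by
  have h1 : Summable fun γ : ℝ => cz χ γ * cexp (I * γ * u) := by
    refine Summable.of_norm_bounded (cz_sum hs) fun γ => ?_
    rw [norm_mul, show (I * γ * u : ℂ) = ((γ * u : ℝ) : ℂ) * I by push_cast; ring, norm_exp_ofReal_mul_I,
      mul_one]
  have h2 := Complex.hasSum_re h1.hasSum
  refine h2.congr_fun ?_
  intro γ
  rw [show (I * γ * u : ℂ) = ((γ * u : ℝ) : ℂ) * I by push_cast; ring]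
  unfold cz cc
  have e : ((mc χ γ : ℂ) * ((2 / (1 + γ ^ 2) : ℝ) : ℂ)) = (((mc χ γ : ℝ) * (2 / (1 + γ ^ 2)) : ℝ) : ℂ) := by
    push_cast
    ring
  rw [e, re_ofReal_mul, exp_ofReal_mul_I_re]
  ring

lemma Zt_eq (hG : ∀ χ : DirichletCharacter ℂ q, GRHc χ) (u : ℝ) :
    Zt q u = (∑ χ : DirichletCharacter ℂ q, Zs χ u).re := by
  have h := hasSum_sum (s := Finset.univ) fun (χ : DirichletCharacter ℂ q) _ => re_Zs (t_PF q χ (hG χ)).1 u
  rw [re_sum, ← h.tsum_eq]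
  unfold Zt MM
  refine tsum_congr fun γ => ?_
  push_cast
  rw [Finset.sum_mul]

lemma err (hG : ∀ χ : DirichletCharacter ℂ q, GRHc χ) : ∃ C : ℝ, 0 ≤ C ∧ ∀ u : ℝ, 0 ≤ u →
    |EE q u + Zt q u| ≤ C * Real.exp (-(u / 4)) := by
  choose C hC using fun χ : DirichletCharacter ℂ q => t_EF t_PF q χ (hG χ)
  refine ⟨∑ χ : DirichletCharacter ℂ q, |C χ|, Finset.sum_nonneg fun _ _ => abs_nonneg _, fun u hu => ?_⟩
  have e1 : ((EE q u : ℝ) : ℂ).re = EE q u := ofReal_re _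
  rw [← e1, (t_CL q).2 u, Zt_eq hG u, ← add_re, ← Finset.sum_add_distrib]
  refine (abs_re_le_norm _).trans ((norm_sum_le _ _).trans ?_)
  rw [Finset.sum_mul]
  refine Finset.sum_le_sum fun χ _ => ?_
  have h := hC χ u hu
  have h2 : ‖EC χ u + Zs χ u‖ ≤ C χ * Real.exp (-(u / 4)) := h
  exact h2.trans (mul_le_mul_of_nonneg_right (le_abs_self _) (Real.exp_pos _).le)

/-- the exponential mean -/
noncomputable def EM (q : ℕ) (lam U : ℝ) : ℝ := (1 / U) * ∫ u in (0 : ℝ)..U, Real.exp (-(lam * EE q u))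

/-- the sum over all zeros -/
noncomputable def SS (q : ℕ) [NeZero q] (lam : ℝ) : ℝ :=
  ∑' γ : ℝ, (MM q γ : ℝ) * Real.log (I0 ((4 * lam / (1 + γ ^ 2) : ℝ) : ℂ)).re

/-- the limit -/
noncomputable def lim0 (q : ℕ) [NeZero q] (lam : ℝ) : ℝ :=
  Real.exp (SS q lam / 2) * Real.exp (2 * lam - Real.log (I0 ((4 * lam : ℝ) : ℂ)).re / 2) ^ (MM q 0)

lemma ct (hG : ∀ χ : DirichletCharacter ℂ q, GRHc χ) {lam : ℝ} (h0 : 0 < lam) (h8 : lam ≤ 1 / 8) :
    Summable (fun γ : ℝ => (MM q γ : ℝ) * Real.log (I0 ((4 * lam / (1 + γ ^ 2) : ℝ) : ℂ)).re) ∧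
    (∮ t in C(0, 1 / 2), ZZt q t * Complex.log (I0 (4 * lam / t))) = 2 * Real.pi * I * ((SS q lam : ℝ) : ℂ) :=
  Pool.Agent.Q174.LQ.t_CT (fun γ => (MM q γ : ℝ)) (ZZt q) lam (fun _ => Nat.cast_nonneg _) (MM_sm hG)
    (fun _ ht => ZZt_eq hG ht) h0 h8

lemma prod_eq (hG : ∀ χ : DirichletCharacter ℂ q, GRHc χ) {lam : ℝ} (h0 : 0 < lam) (h8 : lam ≤ 1 / 8) :
    ∏' i : Ix q, (I0 ((2 * lam * cc i.1 : ℝ) : ℂ)).re =
      Real.exp ((SS q lam - MM q 0 * Real.log (I0 ((4 * lam : ℝ) : ℂ)).re) / 2) := by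
  obtain ⟨hs, -⟩ := ct hG h0 h8
  have hF : ∀ γ : ℝ, (2 * lam * cc γ : ℝ) = 4 * lam / (1 + γ ^ 2) := by
    intro γ
    unfold cc
    ring
  have hs2 : Summable fun γ : ℝ => (MM q γ : ℝ) * Real.log (I0 ((2 * lam * cc γ : ℝ) : ℂ)).re := by
    refine hs.congr fun γ => ?_
    rw [hF]
  have hs3 : Summable fun i : Ix q => Real.log (I0 ((2 * lam * cc i.1 : ℝ) : ℂ)).re :=
    ix_summable hs2 fun γ => Real.log_nonneg (Pool.Agent.Q174.LQ.one_le_I0 _)
  have hpos : ∀ i : Ix q, 0 < (I0 ((2 * lam * cc i.1 : ℝ) : ℂ)).re := fun i => by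
    linarith [Pool.Agent.Q174.LQ.one_le_I0 (2 * lam * cc i.1)]
  rw [← Real.rexp_tsum_eq_tprod hpos hs3]
  congr 1
  rw [ix_tsum (q := q) (F := fun γ => Real.log (I0 ((2 * lam * cc γ : ℝ) : ℂ)).re) hs3]
  have he : ∀ x : ℝ, (MM q (-x) : ℝ) * Real.log (I0 ((2 * lam * cc (-x) : ℝ) : ℂ)).re =
      (MM q x : ℝ) * Real.log (I0 ((2 * lam * cc x : ℝ) : ℂ)).re := by
    intro x
    rw [MM_neg]
    unfold cc
    rw [neg_sq]
  have h1 := even_split hs2 he
  have e0 : (2 * lam * cc 0 : ℝ) = 4 * lam := by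
    unfold cc
    ring
  have e1 : SS q lam = ∑' x : ℝ, (MM q x : ℝ) * Real.log (I0 ((2 * lam * cc x : ℝ) : ℂ)).re := by
    unfold SS
    refine tsum_congr fun γ => ?_
    rw [hF]
  rw [e1, h1, e0]
  ring

/-- the main step -/
theorem mean (hG : ∀ χ : DirichletCharacter ℂ q, GRHc χ) {lam : ℝ} (h0 : 0 < lam) (h8 : lam ≤ 1 / 8) :
    (∃ m : ℝ, lim0 q lam ≤ m ∧ (¬ LinearIndependent ℚ (fun i : Ix q => (i.1 : ℝ)) → lim0 q lam < m) ∧
      ∀ ε : ℝ, 0 < ε → ∀ᶠ U : ℝ in atTop, m - ε ≤ EM q lam U) ∧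
    (LinearIndependent ℚ (fun i : Ix q => (i.1 : ℝ)) → Tendsto (EM q lam) atTop (𝓝 (lim0 q lam))) := by
  obtain ⟨C, hC0, hC⟩ := err hG
  classical
  set r : ℝ → ℝ := fun u => if 0 ≤ u then -EE q u - Zt q u else 0 with hr
  have hrm : Measurable r := by
    refine Measurable.ite measurableSet_Ici ?_ measurable_const
    exact (((t_CL q).1.measurable.neg).sub (zt_cont hG).measurable)
  have hrb : ∀ u, 0 ≤ u → |r u| ≤ C * Real.exp (-(u / 4)) := by
    intro u hu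
    have : r u = -(EE q u + Zt q u) := by
      rw [hr]
      simp only
      rw [if_pos hu]
      ring
    rw [this, abs_neg]
    exact hC u hu
  have hrB : ∀ u, |r u| ≤ C := by
    intro u
    rcases le_or_gt 0 u with hu | hu
    · refine (hrb u hu).trans ?_
      have : Real.exp (-(u / 4)) ≤ 1 := Real.exp_le_one_iff.2 (by linarith)
      nlinarith
    · have : r u = 0 := by
        rw [hr]
        simp only
        rw [if_neg (not_le.2 hu)]
      rw [this, abs_zero]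
      exact hC0
  have hr0 : Tendsto r atTop (𝓝 0) := by
    rw [tendsto_zero_iff_abs_tendsto_zero]
    have h1 : Tendsto (fun u : ℝ => C * Real.exp (-(u / 4))) atTop (𝓝 0) := by
      have h2 : Tendsto (fun u : ℝ => -(u / 4)) atTop atBot :=
        tendsto_neg_atTop_atBot.comp (tendsto_id.atTop_div_const (by norm_num))
      have h3 := (Real.tendsto_exp_atBot.comp h2).const_mul C
      rw [mul_zero] at h3
      exact h3
    refine squeeze_zero' (Eventually.of_forall fun _ => abs_nonneg _) ?_ h1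
    filter_upwards [eventually_ge_atTop 0] with u hu
    exact hrb u hu
  obtain ⟨⟨m, hm1, hm2, -, hm4⟩, hlim⟩ := Pool.Agent.Q151.LQ.t_MV (Ix q) (fun i => (i.1 : ℝ)) (fun i => cc i.1)
    (2 * MM q 0) lam r (fun i => i.1.2) (fun i => cc_pos _) (cc_ix hG) h0 hrm ⟨C, hrB⟩ hr0
  have hE : Real.exp (lam * (2 * MM q 0)) * ∏' i : Ix q, (I0 ((2 * lam * cc i.1 : ℝ) : ℂ)).re = lim0 q lam := by
    rw [prod_eq hG h0 h8]
    unfold lim0
    rw [← Real.exp_nat_mul, ← Real.exp_add, ← Real.exp_add]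
    congr 1
    ring
  have hI : ∀ U : ℝ, 0 ≤ U → (1 / U) * ∫ u in (0 : ℝ)..U,
      Real.exp (lam * (2 * MM q 0 + ∑' i : Ix q, 2 * cc i.1 * Real.cos (i.1 * u) + r u)) = EM q lam U := by
    intro U hU
    unfold EM
    congr 1
    refine intervalIntegral.integral_congr fun u hu => ?_
    have hu0 : 0 ≤ u := by
      rw [uIcc_of_le hU] at hu
      exact hu.1
    have e1 : r u = -EE q u - Zt q u := by
      rw [hr]
      simp only
      rw [if_pos hu0]
    rw [e1, ← zt_split hG u]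
    congr 1
    ring
  rw [hE] at hm1 hm2 hlim
  refine ⟨⟨m, hm1, hm2, fun ε hε => ?_⟩, fun hLI => ?_⟩
  · filter_upwards [hm4 ε hε, eventually_ge_atTop 0] with U h1 h2
    rw [← hI U h2]
    exact h1
  · refine (hlim hLI).congr' ?_
    filter_upwards [eventually_ge_atTop 0] with U h2
    exact hI U h2

end Pool.Agent.H293.LQ
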