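import Pool.Agent.H293.LQ.A3
import Pool.Graph.R_pool_sql_team_seeded_3997aac3.Q253.CP.F5

/-!
# Project LQ, assembly, part 4: the criteria
-/

set_option autoImplicit false

open Complex Filter Topology Metric Set MeasureTheory
open scoped ComplexConjugate
open DirichletCharacter (LFunction completedLFunction changeLevel)

namespace Pool.Agent.H293.LQ

open Pool.Agent.Q253.LQ Pool.Agent.H293.CP Pool.Agent.Q14.LQ

variable {q : ℕ} [NeZero q]

lemma int_exp (q : ℕ) [NeZero q] (lam a b : ℝ) : IntervalIntegrable (fun u => Real.exp (-(lam * EE q u))) volume a b := by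
  have h : Continuous fun u => Real.exp (-(lam * EE q u)) :=
    Real.continuous_exp.comp ((continuous_const.mul (t_CL q).1).neg)
  exact h.intervalIntegrable _ _

theorem grh_of_bdd {lam : ℝ} (h0 : 0 < lam) {C : ℝ} (h : ∀ᶠ U : ℝ in atTop, EM q lam U ≤ C) :
    ∀ χ : DirichletCharacter ℂ q, GRHc χ := by
  refine t_LA q lam h0 ⟨C, ?_⟩
  filter_upwards [h, eventually_gt_atTop 0] with U hU hU0
  unfold EM at hU
  rw [one_div_mul_eq_div, div_le_iff₀ hU0] at hU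
  exact hU

theorem bdd_of_grh (hG : ∀ χ : DirichletCharacter ℂ q, GRHc χ) {lam : ℝ} (h0 : 0 < lam) :
    ∃ C : ℝ, ∀ᶠ U : ℝ in atTop, EM q lam U ≤ C := by
  obtain ⟨C, hC0, hC⟩ := err hG
  set B : ℝ := ∑' γ : ℝ, (MM q γ : ℝ) * cc γ with hB
  have hZ : ∀ u : ℝ, |Zt q u| ≤ B := by
    intro u
    have h1 : ∀ γ : ℝ, ‖(MM q γ : ℝ) * (cc γ * Real.cos (γ * u))‖ ≤ (MM q γ : ℝ) * cc γ := by
      intro γ
      rw [norm_mul, norm_mul, Real.norm_natCast, Real.norm_of_nonneg (cc_pos γ).le, Real.norm_eq_abs]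
      have h1 := Real.abs_cos_le_one (γ * u)
      have h2 := (cc_pos γ).le
      have h3 : (0 : ℝ) ≤ MM q γ := Nat.cast_nonneg _
      have : cc γ * |Real.cos (γ * u)| ≤ cc γ := by nlinarith
      exact mul_le_mul_of_nonneg_left this h3
    exact tsum_of_norm_bounded (cc_sum hG).hasSum h1
  refine ⟨Real.exp (lam * (B + C)), ?_⟩
  filter_upwards [eventually_gt_atTop 0] with U hU
  unfold EM
  rw [one_div_mul_eq_div, div_le_iff₀ hU]
  have h2 : ∀ u ∈ Icc 0 U, Real.exp (-(lam * EE q u)) ≤ Real.exp (lam * (B + C)) := by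
    intro u hu
    apply Real.exp_le_exp.2
    have h3 := (abs_le.1 (hC u hu.1)).1
    have h4 := (abs_le.1 (hZ u)).2
    have h5 : Real.exp (-(u / 4)) ≤ 1 := Real.exp_le_one_iff.2 (by linarith [hu.1])
    have h6 : C * Real.exp (-(u / 4)) ≤ C := by nlinarith
    have h7 : -EE q u ≤ B + C := by linarith
    nlinarith
  calc ∫ u in (0 : ℝ)..U, Real.exp (-(lam * EE q u)) ≤ ∫ _ in (0 : ℝ)..U, Real.exp (lam * (B + C)) :=
        intervalIntegral.integral_mono_on hU.le (int_exp q lam 0 U) intervalIntegrable_const h2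
    _ = Real.exp (lam * (B + C)) * U := by
        rw [intervalIntegral.integral_const, smul_eq_mul, sub_zero]
        ring

/-- linear independence with multiplicities -/
def LI (q : ℕ) [NeZero q] : Prop := LinearIndependent ℚ (fun i : Ix q => (i.1 : ℝ))

/-- from an upper bound for the lower limit -/
theorem li_of_le (hG : ∀ χ : DirichletCharacter ℂ q, GRHc χ) {lam : ℝ} (h0 : 0 < lam) (h8 : lam ≤ 1 / 8)
    {M : ℝ} (hM : M ≤ lim0 q lam) (h : ∀ ε : ℝ, 0 < ε → ∃ᶠ U : ℝ in atTop, EM q lam U ≤ M + ε) :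
    LI q ∧ M = lim0 q lam := by
  obtain ⟨⟨m, h1, h2, h3⟩, -⟩ := mean hG h0 h8
  have hm : m ≤ M := by
    refine le_of_forall_pos_le_add fun ε hε => ?_
    obtain ⟨U, hU1, hU2⟩ := ((h (ε / 2) (by positivity)).and_eventually (h3 (ε / 2) (by positivity))).exists
    linarith
  refine ⟨?_, by linarith⟩
  by_contra hn
  have := h2 hn
  linarith

theorem tends (hG : ∀ χ : DirichletCharacter ℂ q, GRHc χ) {lam : ℝ} (h0 : 0 < lam) (h8 : lam ≤ 1 / 8)
    (h : LI q) : Tendsto (EM q lam) atTop (𝓝 (lim0 q lam)) := (mean hG h0 h8).2 h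

theorem lower (hG : ∀ χ : DirichletCharacter ℂ q, GRHc χ) {lam : ℝ} (h0 : 0 < lam) (h8 : lam ≤ 1 / 8)
    (ε : ℝ) (hε : 0 < ε) : ∀ᶠ U : ℝ in atTop, lim0 q lam - ε ≤ EM q lam U := by
  obtain ⟨⟨m, h1, -, h3⟩, -⟩ := mean hG h0 h8
  filter_upwards [h3 ε hε] with U hU
  linarith

/-- the order of vanishing and the derivative -/
lemma ord_one (χ : DirichletCharacter ℂ q) {s : ℂ} (hs : s ≠ 1) (hL : LFunction χ s = 0) :
    deriv (LFunction χ) s ≠ 0 ↔ analyticOrderNatAt (LFunction χ) s ≤ 1 := by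
  have ha := Pool.Agent.Q14.LQ.LF_an χ hs
  have h1 := ha.analyticOrderAt_deriv_add_one
  have h2 : (fun x => LFunction χ x - LFunction χ s) = LFunction χ := by
    funext x
    rw [hL, sub_zero]
  rw [h2] at h1
  have h3 := Pool.Agent.Q253.CP.ord_ne_top χ hs
  have h4 : analyticOrderAt (deriv (LFunction χ)) s ≠ ⊤ := by
    intro h
    rw [h] at h1
    exact h3 h1.symm
  have h5 := (ha.deriv).analyticOrderAt_eq_zero
  unfold analyticOrderNatAt
  rw [← h1, ENat.toNat_add h4 (by simp), Ne, ← not_iff_not]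
  push Not
  constructor
  · intro h
    have h6 : analyticOrderAt (deriv (LFunction χ)) s ≠ 0 := fun h7 => (h5.1 h7) h
    have h8 : (analyticOrderAt (deriv (LFunction χ)) s).toNat ≠ 0 := by
      rw [Ne, ENat.toNat_eq_zero, not_or]
      exact ⟨h6, h4⟩
    have h9 : (1 : ℕ∞).toNat = 1 := rfl
    rw [h9]
    omega
  · intro h
    by_contra h7
    have h8 := h5.2 h7
    rw [h8] at h
    simp at h

/-- the problem's form of the independence -/
def Hoo (q : ℕ) [NeZero q] : Prop :=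
  (∀ χ : DirichletCharacter ℂ q, ∀ ρ : ℂ, 0 < ρ.re → ρ.re < 1 → 0 < ρ.im →
    LFunction χ ρ = 0 → deriv (LFunction χ) ρ ≠ 0) ∧
  LinearIndependent ℚ (fun p : {p : DirichletCharacter ℂ q × ℂ // 0 < p.2.re ∧ p.2.re < 1 ∧ 0 < p.2.im ∧
    LFunction p.1 p.2 = 0} => p.1.2.im)

lemma on_line {χ : DirichletCharacter ℂ q} (hχ : GRHc χ) {ρ : ℂ} (h0 : 0 < ρ.re) (h1 : ρ.re < 1)
    (h : LFunction χ ρ = 0) : ρ = 1 / 2 + (ρ.im : ℂ) * I := by
  have h2 := Pool.Agent.Q253.CP.strip_line hχ h0 h1 h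
  apply Complex.ext
  · rw [Pool.Agent.Q253.CP.half_re1, h2]
  · rw [Pool.Agent.Q253.CP.half_im1]

lemma mc_pos {χ : DirichletCharacter ℂ q} (hχ : GRHc χ) {ρ : ℂ} (h0 : 0 < ρ.re) (h1 : ρ.re < 1)
    (h : LFunction χ ρ = 0) : 0 < mc χ ρ.im := by
  have h2 := on_line hχ h0 h1 h
  refine Nat.pos_of_ne_zero ((Pool.Agent.Q253.CP.mc_ne χ ρ.im).2 ?_)
  rw [← h2]
  exact h

theorem hoo_iff (hG : ∀ χ : DirichletCharacter ℂ q, GRHc χ) : Hoo q ↔ LI q := by
  constructor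
  · rintro ⟨h1, h2⟩
    have hz : ∀ i : Ix q, LFunction i.2.1 (1 / 2 + ((i.1 : ℝ) : ℂ) * I) = 0 := by
      rintro ⟨γ, χ, j⟩
      refine (Pool.Agent.Q253.CP.mc_ne χ γ).1 (Nat.pos_iff_ne_zero.1 (lt_of_le_of_lt (Nat.zero_le _) j.2))
    have hp : ∀ i : Ix q, 0 < (1 / 2 + ((i.1 : ℝ) : ℂ) * I).re ∧ (1 / 2 + ((i.1 : ℝ) : ℂ) * I).re < 1 ∧
        0 < (1 / 2 + ((i.1 : ℝ) : ℂ) * I).im ∧ LFunction i.2.1 (1 / 2 + ((i.1 : ℝ) : ℂ) * I) = 0 := by
      intro i
      refine ⟨?_, ?_, ?_, hz i⟩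
      · rw [Pool.Agent.Q253.CP.half_re1]; norm_num
      · rw [Pool.Agent.Q253.CP.half_re1]; norm_num
      · rw [Pool.Agent.Q253.CP.half_im1]; exact i.1.2
    have hinj : Function.Injective (fun i : Ix q => (⟨(i.2.1, 1 / 2 + ((i.1 : ℝ) : ℂ) * I), hp i⟩ :
        {p : DirichletCharacter ℂ q × ℂ // 0 < p.2.re ∧ p.2.re < 1 ∧ 0 < p.2.im ∧ LFunction p.1 p.2 = 0})) := by
      rintro ⟨γ, χ, j⟩ ⟨γ', χ', j'⟩ h
      simp only [Subtype.mk.injEq, Prod.mk.injEq] at h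
      obtain ⟨h3, h4⟩ := h
      have h5 : (γ : ℝ) = γ' := by
        have := congrArg Complex.im h4
        rwa [Pool.Agent.Q253.CP.half_im1, Pool.Agent.Q253.CP.half_im1] at this
      have h6 : γ = γ' := Subtype.ext h5
      subst h6
      subst h3
      have h7 : mc χ γ ≤ 1 := (ord_one χ (Pool.Agent.Q253.CP.half_ne1 γ) (hz ⟨γ, χ, j⟩)).1
        (h1 χ _ (hp ⟨γ, χ, j⟩).1 (hp ⟨γ, χ, j⟩).2.1 (hp ⟨γ, χ, j⟩).2.2.1 (hz ⟨γ, χ, j⟩))
      have h8 : j = j' := by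
        apply Fin.ext
        have := j.2
        have := j'.2
        omega
      rw [h8]
    have h3 := h2.comp _ hinj
    have e : (fun i : Ix q => (i.1 : ℝ)) = (fun p : {p : DirichletCharacter ℂ q × ℂ // 0 < p.2.re ∧ p.2.re < 1 ∧
        0 < p.2.im ∧ LFunction p.1 p.2 = 0} => p.1.2.im) ∘
        (fun i : Ix q => (⟨(i.2.1, 1 / 2 + ((i.1 : ℝ) : ℂ) * I), hp i⟩ :
          {p : DirichletCharacter ℂ q × ℂ // 0 < p.2.re ∧ p.2.re < 1 ∧ 0 < p.2.im ∧ LFunction p.1 p.2 = 0})) := by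
      funext i
      exact (Pool.Agent.Q253.CP.half_im1 i.1).symm
    unfold LI
    rw [e]
    exact h3
  · intro h
    have hinj0 := h.injective
    refine ⟨fun χ ρ h0 h1 h2 h3 => ?_, ?_⟩
    · have h4 := on_line (hG χ) h0 h1 h3
      have h5 : ρ ≠ 1 := fun h => by
        rw [h, one_re] at h1
        exact lt_irrefl _ h1
      rw [ord_one χ h5 h3]
      by_contra h6
      have h7 : analyticOrderNatAt (LFunction χ) ρ = mc χ ρ.im := by
        unfold mc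
        rw [← h4]
      rw [h7] at h6
      have h8 : 1 < mc χ ρ.im := by omega
      have h9 := @hinj0 ⟨⟨ρ.im, h2⟩, χ, ⟨0, lt_trans one_pos h8⟩⟩ ⟨⟨ρ.im, h2⟩, χ, ⟨1, h8⟩⟩ rfl
      simp at h9
    · have hinj : Function.Injective (fun p : {p : DirichletCharacter ℂ q × ℂ // 0 < p.2.re ∧ p.2.re < 1 ∧
          0 < p.2.im ∧ LFunction p.1 p.2 = 0} => (⟨⟨p.1.2.im, p.2.2.2.1⟩, p.1.1,
            ⟨0, mc_pos (hG p.1.1) p.2.1 p.2.2.1 p.2.2.2.2⟩⟩ : Ix q)) := by
        rintro ⟨⟨χ, ρ⟩, a1, a2, a3, a4⟩ ⟨⟨χ', ρ'⟩, b1, b2, b3, b4⟩ h5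
        simp only [Sigma.mk.injEq, Subtype.mk.injEq] at h5
        obtain ⟨h6, h7⟩ := h5
        have h6' : ρ.im = ρ'.im := h6
        have h8 : ρ = ρ' := by
          calc ρ = 1 / 2 + (ρ.im : ℂ) * I := on_line (hG χ) a1 a2 a4
            _ = 1 / 2 + (ρ'.im : ℂ) * I := by rw [h6']
            _ = ρ' := (on_line (hG χ') b1 b2 b4).symm
        subst h8
        have h9 : χ = χ' := by
          have := eq_of_heq h7
          exact congrArg Sigma.fst this
        subst h9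
        rfl
      exact h.comp _ hinj

end Pool.Agent.H293.LQ
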